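import Mathlib

/-!
# The image of the product measures under the antiferromagnetic Potts belief-propagation map

For every `q ≥ 4`, `d = 2` and every `0 ≤ β < 1` the set `F^prod_{A,d}` is not convex: the point
`(F(δ_{(1,2)}) + F(δ_{(1,3)}) + F(δ_{(2,3)})) / 3` of its convex hull is not attained.
-/

set_option autoImplicit false

namespace Pool.Agent.Results.MP_d064d6_lc.PairsNotConvex

open Finset

/-- The antiferromagnetic Potts interaction matrix: `β` on the diagonal, `1` off the diagonal. -/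
noncomputable def pottsA (q : ℕ) (β : ℝ) (c b : Fin q) : ℝ := if c = b then β else 1

/-- `G_c(μ)`, the `μ`-average of `∏ i, A_{c, τ i}` over `τ ∈ [q]^d`. -/
noncomputable def bpG (q d : ℕ) (β : ℝ) (μ : (Fin d → Fin q) → ℝ) (c : Fin q) : ℝ :=
  ∑ τ : Fin d → Fin q, μ τ * ∏ i, pottsA q β c (τ i)

/-- The belief-propagation map `F_A(μ) = G(μ) / ∑_c G_c(μ)`. -/
noncomputable def bpF (q d : ℕ) (β : ℝ) (μ : (Fin d → Fin q) → ℝ) : Fin q → ℝ :=
  fun c => bpG q d β μ c / ∑ b, bpG q d β μ b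

/-- The product measure `p_1 ⊗ ⋯ ⊗ p_d` on `[q]^d`. -/
def prodMeas (q d : ℕ) (p : Fin d → Fin q → ℝ) : (Fin d → Fin q) → ℝ :=
  fun τ => ∏ i, p i (τ i)

/-- The set `F^prod_{A,d}`: the images of the product measures `p_1 ⊗ ⋯ ⊗ p_d`, where every `p_i`
is a probability vector on `[q]`. -/
def FProd (q d : ℕ) (β : ℝ) : Set (Fin q → ℝ) :=
  {x | ∃ p : Fin d → Fin q → ℝ, (∀ i, p i ∈ stdSimplex ℝ (Fin q)) ∧ x = bpF q d β (prodMeas q d p)}

lemma bpG_prod {q d : ℕ} (β : ℝ) (p : Fin d → Fin q → ℝ) (hp : ∀ i, ∑ b, p i b = 1) (c : Fin q) :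
    bpG q d β (prodMeas q d p) c = ∏ i, (1 - (1 - β) * p i c) := by
  unfold bpG prodMeas
  have h1 : ∀ τ : Fin d → Fin q, (∏ i, p i (τ i)) * ∏ i, pottsA q β c (τ i) =
      ∏ i, (p i (τ i) * pottsA q β c (τ i)) := by
    intro τ
    rw [← Finset.prod_mul_distrib]
  simp_rw [h1]
  have h2 := Finset.prod_univ_sum (fun _ : Fin d => (Finset.univ : Finset (Fin q)))
    (fun i b => p i b * pottsA q β c b)
  rw [Fintype.piFinset_univ] at h2
  rw [← h2]
  refine Finset.prod_congr rfl fun i _ => ?_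
  have h3 : ∀ b, p i b * pottsA q β c b = p i b - (if c = b then (1 - β) * p i c else 0) := by
    intro b
    unfold pottsA
    split_ifs with h
    · subst h; ring
    · ring
  simp_rw [h3]
  rw [Finset.sum_sub_distrib, hp i]
  simp

lemma bpG_two {q : ℕ} (β : ℝ) (p : Fin 2 → Fin q → ℝ) (hp : ∀ i, ∑ b, p i b = 1) (c : Fin q) :
    bpG q 2 β (prodMeas q 2 p) c = (1 - (1 - β) * p 0 c) * (1 - (1 - β) * p 1 c) := by
  rw [bpG_prod β p hp, Fin.prod_univ_two]

lemma sum_bpG_two {q : ℕ} (β : ℝ) (p : Fin 2 → Fin q → ℝ) (hp : ∀ i, ∑ b, p i b = 1) :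
    ∑ c, bpG q 2 β (prodMeas q 2 p) c = q - 2 * (1 - β) + (1 - β) ^ 2 * ∑ c, p 0 c * p 1 c := by
  have h : ∀ c, bpG q 2 β (prodMeas q 2 p) c =
      1 - (1 - β) * p 0 c - (1 - β) * p 1 c + (1 - β) ^ 2 * (p 0 c * p 1 c) := by
    intro c
    rw [bpG_two β p hp]
    ring
  simp_rw [h]
  rw [Finset.sum_add_distrib, Finset.sum_sub_distrib, Finset.sum_sub_distrib, ← Finset.mul_sum,
    ← Finset.mul_sum, ← Finset.mul_sum, hp 0, hp 1]
  simp
  ring

/-- the point mass at `i` -/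
noncomputable def pm {q : ℕ} (i : Fin q) : Fin q → ℝ := Pi.single i 1

lemma pm_mem {q : ℕ} (i : Fin q) : pm i ∈ stdSimplex ℝ (Fin q) := by
  refine ⟨fun j => ?_, ?_⟩
  · unfold pm
    by_cases h : j = i
    · subst h; simp
    · simp [h]
  · unfold pm
    simp

/-- the vector `F(δ_{(i,j)})`, `i ≠ j` -/
noncomputable def W {q : ℕ} (β : ℝ) (i j : Fin q) : Fin q → ℝ :=
  fun c => (1 - (1 - β) * pm i c) * (1 - (1 - β) * pm j c) / (q - 2 * (1 - β))

lemma W_mem {q : ℕ} (β : ℝ) {i j : Fin q} (hij : i ≠ j) : W β i j ∈ FProd q 2 β := by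
  refine ⟨![pm i, pm j], ?_, ?_⟩
  · intro k
    fin_cases k
    · exact pm_mem i
    · exact pm_mem j
  · have hp : ∀ k, ∑ b, (![pm i, pm j] : Fin 2 → Fin q → ℝ) k b = 1 := by
      intro k
      fin_cases k
      · exact (pm_mem i).2
      · exact (pm_mem j).2
    funext c
    unfold bpF W
    rw [sum_bpG_two β _ hp, bpG_two β _ hp]
    have h0 : ∑ c, (![pm i, pm j] : Fin 2 → Fin q → ℝ) 0 c *
        (![pm i, pm j] : Fin 2 → Fin q → ℝ) 1 c = 0 := by
      apply Finset.sum_eq_zero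
      intro c _
      simp only [Matrix.cons_val_zero, Matrix.cons_val_one]
      unfold pm
      by_cases h : c = i
      · subst h
        simp [hij]
      · simp [h]
    rw [h0]
    simp

/-- **`F^prod` is not convex for `d = 2` and `q ≥ 4`.** -/
theorem not_convex {q : ℕ} (hq : 4 ≤ q) {β : ℝ} (h0 : 0 ≤ β) (h1 : β < 1) :
    ¬ Convex ℝ (FProd q 2 β) := by
  intro hconv
  have hqR : (4 : ℝ) ≤ q := by exact_mod_cast hq
  obtain ⟨a, ha⟩ : ∃ a, a = 1 - β := ⟨_, rfl⟩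
  have ha0 : 0 < a := by rw [ha]; linarith
  have ha1 : a ≤ 1 := by rw [ha]; linarith
  obtain ⟨i0, hi0⟩ : ∃ i0 : Fin q, i0 = ⟨0, by omega⟩ := ⟨_, rfl⟩
  obtain ⟨i1, hi1⟩ : ∃ i1 : Fin q, i1 = ⟨1, by omega⟩ := ⟨_, rfl⟩
  obtain ⟨i2, hi2⟩ : ∃ i2 : Fin q, i2 = ⟨2, by omega⟩ := ⟨_, rfl⟩
  obtain ⟨i3, hi3⟩ : ∃ i3 : Fin q, i3 = ⟨3, by omega⟩ := ⟨_, rfl⟩
  have e01 : i0 ≠ i1 := by rw [hi0, hi1]; simp
  have e02 : i0 ≠ i2 := by rw [hi0, hi2]; simp
  have e03 : i0 ≠ i3 := by rw [hi0, hi3]; simp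
  have e12 : i1 ≠ i2 := by rw [hi1, hi2]; simp
  have e13 : i1 ≠ i3 := by rw [hi1, hi3]; simp
  have e23 : i2 ≠ i3 := by rw [hi2, hi3]; simp
  -- the midpoint
  have hx : (1 / 3 : ℝ) • W β i0 i1 + (2 / 3 : ℝ) • ((1 / 2 : ℝ) • W β i0 i2 +
      (1 / 2 : ℝ) • W β i1 i2) ∈ FProd q 2 β := by
    apply hconv (W_mem β e01) _ (by norm_num) (by norm_num) (by norm_num)
    exact hconv (W_mem β e02) (W_mem β e12) (by norm_num) (by norm_num) (by norm_num)
  obtain ⟨p, hp, hF⟩ := hx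
  have hs : ∀ i, ∑ b, p i b = 1 := fun i => (hp i).2
  have hn : ∀ i b, 0 ≤ p i b := fun i b => (hp i).1 b
  have hle : ∀ i b, p i b ≤ 1 := by
    intro i b
    rw [← hs i]
    exact Finset.single_le_sum (fun c _ => hn i c) (Finset.mem_univ b)
  obtain ⟨Z, hZ⟩ : ∃ Z : ℝ, Z = q - 2 * a := ⟨_, rfl⟩
  have hZ0 : 0 < Z := by rw [hZ]; linarith
  obtain ⟨S, hS⟩ : ∃ S : ℝ, S = ∑ c, p 0 c * p 1 c := ⟨_, rfl⟩
  have hS0 : 0 ≤ S := by
    rw [hS]
    exact Finset.sum_nonneg fun c _ => mul_nonneg (hn 0 c) (hn 1 c)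
  have hT0 : 0 < Z + a ^ 2 * S := by positivity
  -- the value at every coordinate
  have hval : ∀ c, ((1 / 3 : ℝ) * ((1 - a * pm i0 c) * (1 - a * pm i1 c)) +
      (1 / 3 : ℝ) * ((1 - a * pm i0 c) * (1 - a * pm i2 c)) +
      (1 / 3 : ℝ) * ((1 - a * pm i1 c) * (1 - a * pm i2 c))) * (Z + a ^ 2 * S) =
      (1 - a * p 0 c) * (1 - a * p 1 c) * Z := by
    intro c
    have h := congrFun hF c
    unfold bpF at h
    rw [sum_bpG_two β p hs, bpG_two β p hs] at h
    simp only [Pi.add_apply, Pi.smul_apply, smul_eq_mul, W] at h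
    rw [← ha, ← hZ, ← hS] at h
    have h2 : (1 / 3 * ((1 - a * pm i0 c) * (1 - a * pm i1 c)) +
      (1 / 3 : ℝ) * ((1 - a * pm i0 c) * (1 - a * pm i2 c)) +
      (1 / 3 : ℝ) * ((1 - a * pm i1 c) * (1 - a * pm i2 c))) / Z =
      (1 - a * p 0 c) * (1 - a * p 1 c) / (Z + a ^ 2 * S) := by
      rw [← h]
      ring
    rw [div_eq_div_iff hZ0.ne' hT0.ne'] at h2
    exact h2
  have pv : ∀ i j : Fin q, pm i j = if j = i then 1 else 0 := by
    intro i j
    unfold pm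
    rw [Pi.single_apply]
  -- the last coordinate
  have h3 := hval i3
  rw [pv, pv, pv, if_neg e03.symm, if_neg e13.symm, if_neg e23.symm] at h3
  have hg1 : (1 - a * p 0 i3) * (1 - a * p 1 i3) ≤ 1 := by
    have u1 : 0 ≤ a * p 0 i3 := mul_nonneg ha0.le (hn _ _)
    have u2 : 0 ≤ a * p 1 i3 := mul_nonneg ha0.le (hn _ _)
    have u3 : a * p 0 i3 ≤ 1 := by nlinarith [hle 0 i3, hn 0 i3]
    have u4 : a * p 1 i3 ≤ 1 := by nlinarith [hle 1 i3, hn 1 i3]
    nlinarith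
  have hS1 : S = 0 := by
    have h4 : (1 - a * p 0 i3) * (1 - a * p 1 i3) * Z ≤ Z := by nlinarith
    have h5 : a ^ 2 * S ≤ 0 := by nlinarith
    have h6 : 0 < a ^ 2 := by positivity
    nlinarith
  have hdis : ∀ c, p 0 c * p 1 c = 0 := by
    intro c
    have h := (Finset.sum_eq_zero_iff_of_nonneg (s := Finset.univ)
      (f := fun c => p 0 c * p 1 c) (fun c _ => mul_nonneg (hn 0 c) (hn 1 c))).1 (by rw [← hS, hS1])
    exact h c (Finset.mem_univ c)
  -- all coordinates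
  have hsum : ∀ c, p 0 c + p 1 c = (2 / 3 : ℝ) * (pm i0 c + pm i1 c + pm i2 c) := by
    intro c
    have h := hval c
    rw [hS1, mul_zero, add_zero] at h
    have h' := mul_right_cancel₀ hZ0.ne' h
    have hd := hdis c
    have hm : pm i0 c * pm i1 c = 0 ∧ pm i0 c * pm i2 c = 0 ∧ pm i1 c * pm i2 c = 0 := by
      rw [pv, pv, pv]
      refine ⟨?_, ?_, ?_⟩
      · by_cases h : c = i0
        · subst h; simp [e01]
        · simp [h]
      · by_cases h : c = i0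
        · subst h; simp [e02]
        · simp [h]
      · by_cases h : c = i1
        · subst h; simp [e12]
        · simp [h]
    obtain ⟨m1, m2, m3⟩ := hm
    have h7 : a * (p 0 c + p 1 c) = a * ((2 / 3 : ℝ) * (pm i0 c + pm i1 c + pm i2 c)) := by
      linear_combination h' + a ^ 2 * hd - (1 / 3) * a ^ 2 * m1 - (1 / 3) * a ^ 2 * m2 -
        (1 / 3) * a ^ 2 * m3
    exact mul_left_cancel₀ ha0.ne' h7
  -- p 0 takes only the values 0 and 2/3
  have hcase : ∀ c, p 0 c = 0 ∨ p 0 c = (2 / 3 : ℝ) * (pm i0 c + pm i1 c + pm i2 c) := by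
    intro c
    rcases mul_eq_zero.1 (hdis c) with h | h
    · left; exact h
    · right
      rw [← hsum c, h, add_zero]
  have hpc : ∀ c, c ≠ i0 → c ≠ i1 → c ≠ i2 → p 0 c = 0 := by
    intro c n0 n1 n2
    rcases hcase c with h | h
    · exact h
    · rw [h, pv, pv, pv, if_neg n0, if_neg n1, if_neg n2]
      ring
  have hthree : ∑ c, p 0 c = p 0 i0 + p 0 i1 + p 0 i2 := by
    rw [← Finset.sum_subset (Finset.subset_univ ({i0, i1, i2} : Finset (Fin q)))]
    · rw [Finset.sum_insert (by simp [e01, e02]), Finset.sum_insert (by simp [e12]),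
        Finset.sum_singleton]
      ring
    · intro c _ hc
      simp only [Finset.mem_insert, Finset.mem_singleton, not_or] at hc
      exact hpc c hc.1 hc.2.1 hc.2.2
  rw [hs 0] at hthree
  have c0 := hcase i0
  have c1 := hcase i1
  have c2 := hcase i2
  rw [pv, pv, pv, if_pos rfl, if_neg e01, if_neg e02] at c0
  rw [pv, pv, pv, if_neg e01.symm, if_pos rfl, if_neg e12] at c1
  rw [pv, pv, pv, if_neg e02.symm, if_neg e12.symm, if_pos rfl] at c2
  rcases c0 with c0 | c0 <;> rcases c1 with c1 | c1 <;> rcases c2 with c2 | c2 <;>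
    rw [c0, c1, c2] at hthree <;> norm_num at hthree

/-- For every `q ≥ 4` and every `0 ≤ β < 1` the set `F^prod_{A,2}` of the images of the product
measures under the antiferromagnetic Potts belief-propagation map with `d = 2` is not convex (all
these parameters satisfy `max {0, 1 - q / (d + 1)} ≤ β ≤ 1`). Hence the answer to Q1 is
negative. -/
theorem result :
    (∀ q : ℕ, 4 ≤ q → ∀ β : ℝ, 0 ≤ β → β < 1 →
      max 0 (1 - (q : ℝ) / (2 + 1)) ≤ β ∧ ¬ Convex ℝ (FProd q 2 β)) ∧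
    ¬ (∀ q d : ℕ, 3 ≤ q → 1 ≤ d → ∀ β : ℝ, max 0 (1 - (q : ℝ) / (d + 1)) ≤ β → β ≤ 1 →
      Convex ℝ (FProd q d β)) := by
  refine ⟨fun q hq β h0 h1 => ⟨?_, not_convex hq h0 h1⟩, ?_⟩
  · apply max_le h0
    have hqR : (4 : ℝ) ≤ q := by exact_mod_cast hq
    have : (1 : ℝ) ≤ (q : ℝ) / (2 + 1) := by
      rw [le_div_iff₀ (by norm_num)]
      linarith
    linarith
  · intro h
    refine not_convex (q := 4) le_rfl (le_refl 0) one_pos (h 4 2 (by norm_num) (by norm_num) 0 ?_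
      zero_le_one)
    norm_num

end Pool.Agent.Results.MP_d064d6_lc.PairsNotConvex
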